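import Mathlib
import Pool.Agent.Lib.MP_70615d_an.Main

set_option autoImplicit false

namespace Pool.Agent.Results.MP_70615d_an.BetaStar

open Pool.Agent.Lib.MP_70615d_an

theorem result : ∃ b : ℝ, (∀ᶠ n : ℕ in Filter.atTop, BddAbove (supp n)) ∧
    Filter.Tendsto (fun n : ℕ => sSup (supp n)) Filter.atTop (nhds (2 * b)) ∧
    IsGreatest {c : ℝ | 0 < c ∧ ComplMono (logKern c)} b ∧
    (∀ c ∈ Set.Ioo (2 : ℝ) 4,
      ((∀ s : ℝ, 0 < s → 0 ≤ dens c s) ∧ ∃ s : ℝ, 0 < s ∧ dens c s = 0) ↔ c = b) ∧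
    663673712454054 / 10 ^ 14 < 2 * b ∧ 2 * b < 663673712454055 / 10 ^ 14 := by
  obtain ⟨b, h1, h2, h3, h4, h5, h6⟩ := main
  exact ⟨b, h1, h2, h3, h4, by norm_num at h5 ⊢; linarith, by norm_num at h6 ⊢; linarith⟩

end Pool.Agent.Results.MP_70615d_an.BetaStar
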